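import Pool.Agent.W2helper26.DL.Stm
import Pool.Agent.W2helper57.PPH.TakeDrop

/-!
# Piece PADP of project DL: the padded language is in `P`
-/

set_option autoImplicit false

namespace Pool.Agent.W2helper17.DL

open Filter Pool.Agent.NPC Pool.Agent.H620R2.Gauge Pool.Agent.W2helper26.DL
open Pool.Agent.W2helper57.PPH (poly_take poly_drop)

/-- a power of two -/
theorem poly_two_pow {α : Type} [TEnc α] {n : α → ℕ} (hn : UPoly n) :
    NPC.Poly (fun a => 2 ^ n a) := by
  have h1 : NPC.Poly (fun a => (List.replicate (n a) ()).map (fun _ => false)) :=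
    NPC.Poly.map (F := fun _ _ => false) hn (NPC.Poly.const false)
  have h2 := NPC.Poly.valBits (NPC.Poly.append h1 (NPC.Poly.const [true]))
  refine h2.congr fun a => ?_
  rw [List.map_replicate, valB_replicate_false]
  simp

theorem poly_padLen (k D : ℕ) {α : Type} [TEnc α] {n : α → ℕ} (hn : NPC.Poly n) :
    NPC.Poly (fun a => padLen k D (n a)) := by
  have h1 : UPoly (fun a => Nat.size (n a)) :=
    (UPoly.length (NPC.Poly.natBits hn)).congr fun a => by
      show _ = _
      simp only [Nat.size_eq_bits_len]
  have h2 : UPoly (fun a => D * (Nat.size (n a) + 1) ^ k) := by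
    have := h1.eval (Polynomial.C D * (Polynomial.X + Polynomial.C 1) ^ k)
    simpa using this
  exact NPC.Poly.add hn (poly_two_pow h2)

theorem padLen_strictMono (k D : ℕ) : StrictMono (padLen k D) := by
  intro m n hmn
  unfold padLen
  have h1 : Nat.size m ≤ Nat.size n := Nat.size_le_size hmn.le
  have h2 : 2 ^ (D * (Nat.size m + 1) ^ k) ≤ 2 ^ (D * (Nat.size n + 1) ^ k) :=
    Nat.pow_le_pow_right (by norm_num)
      (Nat.mul_le_mul_left _ (Nat.pow_le_pow_left (by omega) k))
  omega

theorem lt_padLen (k D n : ℕ) : n < padLen k D n := by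
  unfold padLen
  have : 0 < 2 ^ (D * (Nat.size n + 1) ^ k) := by positivity
  omega

/-- the length of the original word -/
def ln (k D : ℕ) (y : List Bool) : ℕ :=
  ((List.range y.length).filter (fun n => decide (padLen k D n < y.length))).length

theorem ln_eq (k D : ℕ) (y : List Bool) {n : ℕ} (h : y.length = padLen k D n) :
    ln k D y = n := by
  unfold ln
  have h1 : (List.range y.length).filter (fun n' => decide (padLen k D n' < y.length)) =
      (List.range y.length).filter (fun n' => decide (n' < n)) := by
    refine List.filter_congr fun m _ => ?_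
    simp only [h, (padLen_strictMono k D).lt_iff_lt]
  have h2 : ∀ a b : ℕ, b ≤ a → ((List.range a).filter (fun n' => decide (n' < b))).length = b := by
    intro a b hab
    obtain ⟨c, rfl⟩ := Nat.exists_eq_add_of_le hab
    rw [List.range_add, List.filter_append, List.length_append]
    have e1 : (List.range b).filter (fun n' => decide (n' < b)) = List.range b := by
      rw [List.filter_eq_self]
      intro a ha
      simpa using ha
    have e2 : ((List.range c).map (fun x => b + x)).filter (fun n' => decide (n' < b)) = [] := by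
      rw [List.filter_eq_nil_iff]
      intro a ha
      rw [List.mem_map] at ha
      obtain ⟨x, -, rfl⟩ := ha
      simp
    rw [e1, e2]
    simp
  rw [h1]
  exact h2 _ _ (by rw [h]; exact (lt_padLen k D n).le)

/-- the test -/
def tst (k D : ℕ) (y : List Bool) : Bool :=
  decide (y.length = padLen k D (ln k D y)) && (y.drop (ln k D y)).all (fun b => !b)

theorem tst_padw (k D : ℕ) (x : List Bool) :
    tst k D (padw k D x) = true ∧ (padw k D x).take (ln k D (padw k D x)) = x := by
  have h1 : (padw k D x).length = padLen k D x.length := by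
    simp [padw, padLen]
  have h2 := ln_eq k D _ h1
  unfold tst
  rw [h2]
  refine ⟨?_, ?_⟩
  · rw [Bool.and_eq_true, decide_eq_true_eq, List.all_eq_true]
    refine ⟨h1, fun b hb => ?_⟩
    unfold padw at hb
    rw [List.drop_left' rfl] at hb
    rw [List.eq_of_mem_replicate hb]
    rfl
  · unfold padw
    rw [List.take_left' rfl]

theorem eq_padw (k D : ℕ) (y : List Bool) (h : tst k D y = true) :
    y = padw k D (y.take (ln k D y)) := by
  unfold tst at h
  rw [Bool.and_eq_true, decide_eq_true_eq, List.all_eq_true] at h
  obtain ⟨h1, h2⟩ := h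
  have h3 : ln k D y ≤ y.length := by
    have := lt_padLen k D (ln k D y)
    omega
  have h4 : (y.take (ln k D y)).length = ln k D y := by
    rw [List.length_take, min_eq_left h3]
  have h5 : y.drop (ln k D y) =
      List.replicate (2 ^ (D * (Nat.size (ln k D y) + 1) ^ k)) false := by
    rw [List.eq_replicate_iff]
    refine ⟨?_, fun b hb => ?_⟩
    · rw [List.length_drop]
      unfold padLen at h1
      omega
    · have := h2 b hb
      simpa using this
  unfold padw
  rw [h4, ← h5, List.take_append_drop]

theorem mem_padL_iff (k D : ℕ) (L : Set (List Bool)) (y : List Bool) :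
    y ∈ padL k D L ↔ tst k D y = true ∧ y.take (ln k D y) ∈ L := by
  constructor
  · rintro ⟨x, hx, rfl⟩
    obtain ⟨h1, h2⟩ := tst_padw k D x
    exact ⟨h1, by rw [h2]; exact hx⟩
  · rintro ⟨h1, h2⟩
    exact ⟨_, h2, eq_padw k D y h1⟩

theorem poly_ln (k D : ℕ) : NPC.Poly (ln k D) := by
  have h1 : NPC.Poly (fun y : List Bool => y) := NPC.Poly.id
  refine NPC.Poly.length (NPC.Poly.filter (p := fun (y : List Bool) n =>
    decide (padLen k D n < y.length)) (NPC.Poly.range_length h1) ?_)
  exact NPC.Poly.decide_lt (poly_padLen k D (NPC.Poly.snd NPC.Poly.id))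
    (NPC.Poly.length (NPC.Poly.fst NPC.Poly.id))

theorem poly_tst (k D : ℕ) : NPC.Poly (tst k D) := by
  have h1 : NPC.Poly (fun y : List Bool => y) := NPC.Poly.id
  refine NPC.Poly.and (NPC.Poly.decide_eq (NPC.Poly.length h1) (poly_padLen k D (poly_ln k D))) ?_
  exact NPC.Poly.all (p := fun (_ : List Bool) b => !b) (poly_drop h1 (poly_ln k D))
    (NPC.Poly.not (NPC.Poly.snd NPC.Poly.id))

theorem p_padP : P_padP := by
  classical
  intro k D A L hL
  obtain ⟨V, hV, hVL⟩ := hL
  have h1 : NPC.Poly (fun z : List Bool => (unpair z).1) := NPC.Poly.fst poly_unpair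
  have h2 : NPC.Poly (fun z : List Bool => (unpair z).2) := NPC.Poly.snd poly_unpair
  let F : List Bool → List Bool := fun z =>
    if tst k D (unpair z).1 = true then (unpair z).2 else [false]
  have hF : NPC.Poly F := NPC.Poly.ite (NPC.Poly.decide_bool ((poly_tst k D).comp h1)) h2
    (NPC.Poly.const _)
  have hg : NPC.Poly (fun y : List Bool => y.take (ln k D y)) :=
    poly_take NPC.Poly.id (poly_ln k D)
  refine ⟨fun y => F (pairBits y (V (y.take (ln k D y)))), ?_, fun y => ?_⟩
  · exact IsFP.comp (IsFP.of_poly hF) (IsFP.pair (IsFP.of_poly NPC.Poly.id) (hV.precomp hg))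
  · rw [mem_padL_iff, hVL]
    simp only [F, unpair_pairBits]
    by_cases h : tst k D y = true
    · simp [h]
    · simp [h]

end Pool.Agent.W2helper17.DL
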